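import Pool.Agent.Y934.BEF.Stm

/-!
# Columns of zeros give inequivalent zeros

`count : CountStm` of `Pool.Agent.Y934.BEF.Stm`.
-/

set_option autoImplicit false

namespace Pool.Agent.Y317.BEF

open Filter Topology Pool.Agent.Y934.BEF

/-- the spacing in frequency -/
lemma freq {N r s : ℕ} {l : ℤ} {φ t t' : ℝ} (hr : r < N) (hs : s < N)
    (h1 : |t - (((r : ℤ) : ℝ) + φ) / (N : ℝ)| < 1 / (2 * (N : ℝ)))
    (h2 : |t' - (((s : ℤ) : ℝ) + φ) / (N : ℝ)| < 1 / (2 * (N : ℝ))) (h : t - t' = l) : r = s := by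
  have hN : (0 : ℝ) < N := by
    have : 0 < N := by omega
    exact_mod_cast this
  rw [abs_lt] at h1 h2
  have e1 : (((r : ℤ) : ℝ) + φ) / (N : ℝ) * N = ((r : ℤ) : ℝ) + φ := div_mul_cancel₀ _ hN.ne'
  have e2 : (((s : ℤ) : ℝ) + φ) / (N : ℝ) * N = ((s : ℤ) : ℝ) + φ := div_mul_cancel₀ _ hN.ne'
  have e3 : 1 / (2 * (N : ℝ)) * N = 1 / 2 := by field_simp
  have a1 := mul_lt_mul_of_pos_right h1.1 hN
  have a2 := mul_lt_mul_of_pos_right h1.2 hN
  have b1 := mul_lt_mul_of_pos_right h2.1 hN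
  have b2 := mul_lt_mul_of_pos_right h2.2 hN
  rw [sub_mul, e1, neg_mul, e3] at a1
  rw [sub_mul, e1, e3] at a2
  rw [sub_mul, e2, neg_mul, e3] at b1
  rw [sub_mul, e2, e3] at b2
  have c : (l : ℝ) * N = t * N - t' * N := by rw [← h]; ring
  have d1 : (l : ℝ) * N - (((r : ℤ) : ℝ) - ((s : ℤ) : ℝ)) < 1 := by rw [c]; linarith
  have d2 : -1 < (l : ℝ) * N - (((r : ℤ) : ℝ) - ((s : ℤ) : ℝ)) := by rw [c]; linarith
  have d3 : l * N - ((r : ℤ) - (s : ℤ)) < 1 := by exact_mod_cast d1
  have d4 : -1 < l * N - ((r : ℤ) - (s : ℤ)) := by exact_mod_cast d2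
  have d5 : l * N = (r : ℤ) - s := by omega
  have d6 : l = 0 := by
    by_contra hl
    rcases lt_or_gt_of_ne hl with h0 | h0
    · have : l * N ≤ -1 * N := mul_le_mul_of_nonneg_right (by omega) (by positivity)
      omega
    · have : 1 * (N : ℤ) ≤ l * N := mul_le_mul_of_nonneg_right (by omega) (by positivity)
      omega
  rw [d6, zero_mul] at d5
  omega

theorem count : CountStm := by
  intro A _ q hq y hy lo hi hdis N Z hZ
  classical
  obtain ⟨U, hU⟩ : ∃ U : ℝ, U = ∑ a, (|lo a| + |hi a|) := ⟨_, rfl⟩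
  have hU0 : ∀ a, ∀ v ∈ Set.Ioo (lo a) (hi a), |v| ≤ U := by
    intro a v hv
    have h1 : |lo a| + |hi a| ≤ U := by
      rw [hU]
      exact Finset.single_le_sum (f := fun a => |lo a| + |hi a|)
        (fun i _ => add_nonneg (abs_nonneg _) (abs_nonneg _)) (Finset.mem_univ a)
    have h2 := hv.1
    have h3 := hv.2
    rw [abs_le]
    constructor
    · have := neg_abs_le (lo a)
      have := abs_nonneg (hi a)
      linarith
    · have := le_abs_self (hi a)
      have := abs_nonneg (lo a)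
      linarith
  have e1 : ∀ᶠ g : ℝ in atTop, ∀ a b : A, y a ≠ y b → 2 * U < |y a - y b| * g := by
    rw [eventually_all]
    intro a
    rw [eventually_all]
    intro b
    by_cases h : y a = y b
    · exact Eventually.of_forall fun g h' => absurd h h'
    · have h0 : 0 < |y a - y b| := abs_pos.2 (sub_ne_zero.2 h)
      filter_upwards [eventually_gt_atTop (2 * U / |y a - y b|)] with g hg _
      rw [div_lt_iff₀ h0] at hg
      linarith
  have e2 : ∀ᶠ g : ℝ in atTop, ∀ a b : A, 2 * U < (q - |y a - y b|) * g := by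
    rw [eventually_all]
    intro a
    rw [eventually_all]
    intro b
    have h0 : 0 < (q : ℝ) - |y a - y b| := by
      rw [sub_pos, abs_lt]
      constructor
      · linarith [(hy a).1, (hy b).2]
      · linarith [(hy a).2, (hy b).1]
    filter_upwards [eventually_gt_atTop (2 * U / (q - |y a - y b|))] with g hg
    rw [div_lt_iff₀ h0] at hg
    linarith
  filter_upwards [e1, e2, eventually_all.2 hZ, eventually_gt_atTop 0] with g h1 h2 h3 hg0
  choose φ hφ using h3
  choose v hv θ hθ hz using hφ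
  refine ⟨fun i => y i.1 * g - v i.1 (i.2 : ℕ), fun i => θ i.1 (i.2 : ℕ), fun i => hz _ _, ?_⟩
  rintro ⟨a, r⟩ ⟨b, s⟩ hij k l hx ht
  simp only at hx ht
  have hvv : |v a (r : ℕ) - v b (s : ℕ)| ≤ 2 * U := by
    have := abs_sub (v a (r : ℕ)) (v b (s : ℕ))
    have := hU0 a _ (hv a (r : ℕ))
    have := hU0 b _ (hv b (s : ℕ))
    linarith
  have hk : (y a - y b - k * q) * g = v a (r : ℕ) - v b (s : ℕ) := by linarith
  have hkg : |y a - y b - k * q| * g ≤ 2 * U := by
    rw [← hk, abs_mul, abs_of_pos hg0] at hvv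
    exact hvv
  have hk0 : k = 0 := by
    by_contra hk0
    have c1 : (1 : ℝ) ≤ |(k : ℝ)| := by
      rw [← Int.cast_abs]
      exact_mod_cast Int.one_le_abs hk0
    have c2 : (q : ℝ) - |y a - y b| ≤ |y a - y b - k * q| := by
      have c3 : |(k : ℝ) * q| - |y a - y b| ≤ |y a - y b - k * q| := by
        rw [abs_sub_comm (y a - y b) (k * q)]
        exact abs_sub_abs_le_abs_sub _ _
      rw [abs_mul, Nat.abs_cast] at c3
      have c4 : (q : ℝ) ≤ |(k : ℝ)| * q := le_mul_of_one_le_left (Nat.cast_nonneg q) c1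
      linarith
    have c5 := mul_le_mul_of_nonneg_right c2 hg0.le
    have := h2 a b
    linarith
  subst hk0
  rw [Int.cast_zero, zero_mul, sub_zero] at hk hkg
  have hyy : y a = y b := by
    by_contra hne
    have := h1 a b hne
    linarith
  rw [hyy, sub_self, zero_mul] at hk
  have hvv' : v a (r : ℕ) = v b (s : ℕ) := (sub_eq_zero.1 hk.symm)
  by_cases hab : a = b
  · subst hab
    exact hij (by rw [Fin.ext (freq r.2 s.2 (hθ a _) (hθ a _) ht)])
  · have hd := hdis a b hab hyy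
    exact Set.disjoint_left.1 hd (hv a (r : ℕ)) (by rw [hvv']; exact hv b (s : ℕ))

end Pool.Agent.Y317.BEF
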